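import Mathlib

/-!
# Canonical join complexes are not closed under induced subcomplexes

For a finite simple graph `K` we construct a finite semidistributive lattice whose canonical join
complex has the independence complex of `K` as an induced subcomplex, at least as far as the edges
are concerned. On the other hand, if `K` is triangle-free and a complex with the same edges as the
independence complex of `K` is the canonical join complex of a finite semidistributive lattice, then
`K` is 3-colourable. The Grötzsch graph gives the counterexample.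
-/

set_option autoImplicit false

namespace Pool.Agent.Results.MP_b1aa48_co.InducedSubcomplexes

/-- A lattice is semidistributive if it is join-semidistributive and meet-semidistributive. -/
structure Semidistributive (L : Type*) [Lattice L] : Prop where
  join : ∀ x y z : L, x ⊔ y = x ⊔ z → x ⊔ (y ⊓ z) = x ⊔ y
  meet : ∀ x y z : L, x ⊓ y = x ⊓ z → x ⊓ (y ⊔ z) = x ⊓ y

/-- `A` is the canonical join representation of `w`: it is a join representation of `w`, no proper
subset of it is one, and it refines every join representation of `w`. -/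
structure IsCanonicalJoinRep {L : Type*} [Lattice L] (A : Set L) (w : L) : Prop where
  isLUB : IsLUB A w
  irredundant : ∀ B, B ⊂ A → ¬ IsLUB B w
  refines : ∀ B, IsLUB B w → ∀ a ∈ A, ∃ b ∈ B, a ≤ b

/-- The type of join-irreducible elements. -/
abbrev JI (L : Type*) [Lattice L] : Type _ := {j : L // SupIrred j}

section general

variable {L : Type*} [Lattice L]

/-- A subset of a canonical join representation is one. -/
lemma IsCanonicalJoinRep.subset {A : Set L} {w : L} (h : IsCanonicalJoinRep A w) {B : Set L}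
    (hB : B ⊆ A) {v : L} (hv : IsLUB B v) : IsCanonicalJoinRep B v := by
  have key : ∀ D, IsLUB D v → IsLUB (D ∪ (A \ B)) w := by
    intro D hD
    constructor
    · rintro x (hx | hx)
      · refine (hD.1 hx).trans (hv.2 fun b hb => h.isLUB.1 (hB hb))
      · exact h.isLUB.1 hx.1
    · intro u hu
      refine h.isLUB.2 fun a ha => ?_
      by_cases hab : a ∈ B
      · exact (hv.1 hab).trans (hD.2 fun x hx => hu (Or.inl hx))
      · exact hu (Or.inr ⟨ha, hab⟩)
  refine ⟨hv, fun C hC hCv => ?_, fun D hD b hb => ?_⟩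
  · refine h.irredundant (C ∪ (A \ B)) ?_ (key C hCv)
    obtain ⟨b, hbB, hbC⟩ := Set.exists_of_ssubset hC
    refine ⟨Set.union_subset (hC.1.trans hB) Set.sdiff_subset, fun hs => ?_⟩
    rcases hs (hB hbB) with h1 | h1
    · exact hbC h1
    · exact h1.2 hbB
  · obtain ⟨d, hd, hbd⟩ := h.refines _ (key D hD) b (hB hb)
    rcases hd with hd | hd
    · exact ⟨d, hd, hbd⟩
    · exfalso
      have hne : b ≠ d := by rintro rfl; exact hd.2 hb
      refine h.irredundant (A \ {b}) ⟨Set.sdiff_subset, fun hs => (hs (hB hb)).2 rfl⟩ ⟨?_, ?_⟩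
      · exact fun x hx => h.isLUB.1 hx.1
      · intro u hu
        refine h.isLUB.2 fun a ha => ?_
        by_cases hab : a = b
        · rw [hab]
          exact hbd.trans (hu ⟨hd.1, fun h => hne h.symm⟩)
        · exact hu ⟨ha, hab⟩

lemma exists_greatest [Finite L] {S : Set L} (hne : S.Nonempty)
    (hs : ∀ x ∈ S, ∀ y ∈ S, x ⊔ y ∈ S) : ∃ g, IsGreatest S g := by
  obtain ⟨g, hg⟩ := (Set.toFinite S).exists_maximal hne
  refine ⟨g, hg.1, fun x hx => ?_⟩
  exact le_sup_right.trans (hg.2 (hs g hg.1 x hx) le_sup_left)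

/-- The singleton of a join-irreducible element is a canonical join representation. -/
lemma singleton_canonical [Finite L] {j : L} (hj : SupIrred j) : IsCanonicalJoinRep {j} j := by
  refine ⟨isLUB_singleton, fun B hB hlub => ?_, fun B hB a ha => ?_⟩
  · rw [Set.ssubset_singleton_iff] at hB
    subst hB
    exact hj.1 (fun b _ => hlub.2 (fun x hx => hx.elim))
  · rw [Set.mem_singleton_iff] at ha
    subst ha
    by_contra hcon
    push Not at hcon
    -- the maximal element below `a`
    have hlt : ∀ b ∈ B, b < a := fun b hb =>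
      lt_of_le_of_ne (hB.1 hb) (fun h => hcon b hb h.ge)
    by_cases hBne : B.Nonempty
    · obtain ⟨b₀, hb₀⟩ := hBne
      obtain ⟨m, hm⟩ := exists_greatest (S := {z | z < a}) ⟨b₀, hlt b₀ hb₀⟩
        (fun x hx y hy => lt_of_le_of_ne (sup_le hx.le hy.le)
          (fun h => (hj.2 h).elim (fun h => hx.ne h) (fun h => hy.ne h)))
      exact absurd (hB.2 fun b hb => hm.2 (hlt b hb)) (not_le_of_gt hm.1)
    · rw [Set.not_nonempty_iff_eq_empty] at hBne
      subst hBne
      exact hj.1 (fun b _ => hB.2 (fun x hx => hx.elim))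

/-- The canonical join complex of a finite lattice. -/
def canonicalJoinComplex (L : Type*) [Lattice L] [Finite L] : AbstractSimplicialComplex (JI L) where
  faces := {s | s.Nonempty ∧ ∃ w, IsCanonicalJoinRep (Subtype.val '' (s : Set (JI L))) w}
  isRelLowerSet_faces := by
    rintro s ⟨hs, w, hw⟩
    refine ⟨hs, fun t hts ht => ⟨ht, ?_⟩⟩
    have hfin : (Subtype.val '' (t : Set (JI L))).Finite := Set.toFinite _
    classical
    obtain ⟨j, hj⟩ := ht
    obtain ⟨v, hv⟩ : ∃ v, IsLUB (Subtype.val '' (t : Set (JI L))) v :=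
      ⟨_, by simpa using Finset.isLUB_sup' (s := t.image Subtype.val) ⟨j.1, by
        simpa using ⟨j.2, hj⟩⟩⟩
    exact ⟨v, hw.subset (Set.image_mono (by exact_mod_cast hts)) hv⟩
  singleton_mem := fun j => ⟨Finset.singleton_nonempty j, j.1, by
    simpa using singleton_canonical j.2⟩

end general

/-- The subcomplex induced on a set `W` of vertices. -/
def induced {V : Type*} (K : AbstractSimplicialComplex V) (W : Set V) :
    AbstractSimplicialComplex W where
  faces := {s | s.map (Function.Embedding.subtype _) ∈ K.faces}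
  isRelLowerSet_faces := by
    intro s hs
    have h := K.isRelLowerSet_faces hs
    refine ⟨by simpa using h.1, fun t hts ht => ?_⟩
    exact h.2 (by simpa using hts) (by simpa using ht)
  singleton_mem := fun v => by
    simpa using K.singleton_mem v.1

/-- Two complexes are isomorphic if there is a bijection between their vertex sets that takes faces
to faces in both directions. -/
def Isomorphic {V V' : Type*} (K : AbstractSimplicialComplex V)
    (K' : AbstractSimplicialComplex V') : Prop :=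
  ∃ e : V ≃ V', ∀ s : Finset V, s ∈ K.faces ↔ s.map e.toEmbedding ∈ K'.faces

section kappa

variable {L : Type*} [Lattice L]

lemma exists_lower [Finite L] {j : L} (hj : SupIrred j) :
    ∃ m, IsGreatest {z | z < j} m := by
  obtain ⟨z, hz⟩ : ∃ z, z < j := by
    have := hj.1
    rw [not_isMin_iff] at this
    exact this
  exact exists_greatest ⟨z, hz⟩ (fun x hx y hy => lt_of_le_of_ne (sup_le hx.le hy.le)
    (fun h => (hj.2 h).elim (fun h => hx.ne h) (fun h => hy.ne h)))

/-- The set whose greatest element is `κ(j)`. -/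
def kset (j : L) : Set L := {y | (∀ z, z < j → z ≤ y) ∧ ¬ j ≤ y}

lemma exists_kappa [Finite L] (hL : Semidistributive L) {j : L} (hj : SupIrred j) :
    ∃ k, IsGreatest (kset j) k := by
  obtain ⟨m, hm⟩ := exists_lower hj
  have h0 : ∀ y, y ∈ kset j → j ⊓ y = m := by
    intro y hy
    refine le_antisymm (hm.2 (lt_of_le_of_ne inf_le_left (fun h => hy.2 (inf_eq_left.1 h)))) ?_
    exact le_inf hm.1.le (hy.1 m hm.1)
  refine exists_greatest ⟨m, fun z hz => hm.2 hz, not_le_of_gt hm.1⟩ fun x hx y hy => ⟨?_, ?_⟩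
  · exact fun z hz => (hx.1 z hz).trans le_sup_left
  · intro hle
    have h1 := hL.meet j x y (by rw [h0 x hx, h0 y hy])
    rw [inf_eq_left.2 hle, h0 x hx] at h1
    exact hm.1.ne' h1

variable [Finite L] (hL : Semidistributive L)

/-- The element `κ(j)`. -/
noncomputable def kappa (j : JI L) : L := (exists_kappa hL j.2).choose

lemma kappa_spec (j : JI L) : IsGreatest (kset j.1) (kappa hL j) :=
  (exists_kappa hL j.2).choose_spec

lemma lt_le_kappa {j : JI L} {z : L} (h : z < j.1) : z ≤ kappa hL j :=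
  (kappa_spec hL j).1.1 z h

lemma not_le_kappa (j : JI L) : ¬ j.1 ≤ kappa hL j := (kappa_spec hL j).1.2

lemma le_kappa {j : JI L} {y : L} (h1 : ∀ z, z < j.1 → z ≤ y) (h2 : ¬ j.1 ≤ y) :
    y ≤ kappa hL j := (kappa_spec hL j).2 ⟨h1, h2⟩

/-- If `i ≰ κ(j)` there is a join-irreducible `z ≤ i` with `κ(j) ≤ κ(z)`. -/
lemma factor {i j : JI L} (h : ¬ i.1 ≤ kappa hL j) :
    ∃ z : JI L, z.1 ≤ i.1 ∧ kappa hL j ≤ kappa hL z := by
  obtain ⟨z, hz⟩ := (Set.toFinite {y : L | y ≤ i.1 ∧ ¬ y ≤ kappa hL j}).exists_minimal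
    ⟨i.1, le_rfl, h⟩
  have hlt : ∀ y, y < z → y ≤ kappa hL j := by
    intro y hy
    by_contra hcon
    exact hy.not_ge (hz.2 ⟨hy.le.trans hz.1.1, hcon⟩ hy.le)
  have hirr : SupIrred z := by
    refine ⟨fun hmin => hz.1.2 ?_, fun b c hbc => ?_⟩
    · exact le_trans (hmin (inf_le_left : z ⊓ kappa hL j ≤ z)) inf_le_right
    · by_contra hcon
      push Not at hcon
      have h1 : b < z := lt_of_le_of_ne (hbc ▸ le_sup_left) hcon.1
      have h2 : c < z := lt_of_le_of_ne (hbc ▸ le_sup_right) hcon.2
      exact hz.1.2 (hbc ▸ sup_le (hlt b h1) (hlt c h2))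
  exact ⟨⟨z, hirr⟩, hz.1.1, le_kappa hL hlt hz.1.2⟩

/-- `κ` is injective. -/
lemma kappa_inj {i j : JI L} (h : kappa hL i = kappa hL j) : i = j := by
  by_contra hne
  set k := kappa hL i with hk
  have hi : ¬ i.1 ≤ k := not_le_kappa hL i
  have hj : ¬ j.1 ≤ k := h ▸ not_le_kappa hL j
  have hik : ∀ z, z < i.1 → z ≤ k := fun z hz => lt_le_kappa hL hz
  have hjk : ∀ z, z < j.1 → z ≤ k := fun z hz => h ▸ lt_le_kappa hL hz
  have h1 : ¬ i.1 ≤ j.1 := fun hle =>
    hi (hjk _ (lt_of_le_of_ne hle (fun h => hne (Subtype.ext h))))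
  have h2 : i.1 ⊓ j.1 ≤ k := hik _ (lt_of_le_of_ne inf_le_left (fun h => h1 (inf_eq_left.1 h)))
  have h3 : j.1 ≤ k ⊔ i.1 := by
    by_contra hcon
    have := le_kappa hL (j := j) (fun z hz => (hjk z hz).trans le_sup_left) hcon
    rw [← h] at this
    exact hi (le_sup_right.trans this)
  have h4 : i.1 ≤ k ⊔ j.1 := by
    by_contra hcon
    have := le_kappa hL (j := i) (fun z hz => (hik z hz).trans le_sup_left) hcon
    exact hj (le_sup_right.trans this)
  have h5 : k ⊔ i.1 = k ⊔ j.1 :=
    le_antisymm (sup_le le_sup_left h4) (sup_le le_sup_left h3)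
  have h6 := hL.join k i.1 j.1 h5
  rw [sup_eq_left.2 h2] at h6
  exact hi (le_sup_right.trans h6.ge)

/-- In a canonical join representation `{i, j}` one has `i ≤ κ(j)`. -/
lemma le_kappa_of_canonical {i j : JI L} (hij : i ≠ j) {w : L}
    (h : IsCanonicalJoinRep {i.1, j.1} w) : i.1 ≤ kappa hL j := by
  obtain ⟨m, hm⟩ := exists_lower j.2
  have hnij : i.1 ≠ j.1 := fun h => hij (Subtype.ext h)
  have hnle : ¬ j.1 ≤ i.1 := by
    intro hle
    refine h.irredundant {i.1} ⟨by simp, fun hs => ?_⟩ ⟨?_, ?_⟩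
    · have := hs (Set.mem_insert_of_mem _ rfl)
      exact hnij (by simpa using this.symm)
    · exact fun x hx => h.isLUB.1 (by rw [hx]; simp)
    · intro u hu
      refine h.isLUB.2 fun a ha => ?_
      rcases ha with rfl | ha
      · exact hu rfl
      · rw [Set.mem_singleton_iff.1 ha]
        exact hle.trans (hu rfl)
  have key : ¬ j.1 ≤ i.1 ⊔ m := by
    intro hle
    have h1 : IsLUB {i.1, m} w := by
      constructor
      · rintro x (rfl | hx)
        · exact h.isLUB.1 (by simp)
        · rw [Set.mem_singleton_iff.1 hx]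
          exact hm.1.le.trans (h.isLUB.1 (by simp))
      · intro u hu
        have h2 : i.1 ⊔ m ≤ u := sup_le (hu (by simp)) (hu (by simp))
        refine h.isLUB.2 fun a ha => ?_
        rcases ha with rfl | ha
        · exact le_sup_left.trans h2
        · rw [Set.mem_singleton_iff.1 ha]
          exact hle.trans h2
    obtain ⟨b, hb, hjb⟩ := h.refines _ h1 j.1 (by simp)
    rcases hb with rfl | hb
    · exact hnle hjb
    · rw [Set.mem_singleton_iff.1 hb] at hjb
      exact absurd hjb (not_le_of_gt hm.1)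
  exact le_sup_left.trans (le_kappa hL (fun z hz => (hm.2 hz).trans le_sup_right) key)

/-- If `i ≤ κ(j)` and `j ≤ κ(i)` then `{i, j}` is a canonical join representation. -/
lemma canonical_of_le_kappa {i j : JI L} (h1 : i.1 ≤ kappa hL j) (h2 : j.1 ≤ kappa hL i) :
    IsCanonicalJoinRep {i.1, j.1} (i.1 ⊔ j.1) := by
  have key : ∀ i j : JI L, i.1 ≤ kappa hL j → j.1 ≤ kappa hL i →
      ∀ y, y ≤ i.1 ⊔ j.1 → ¬ i.1 ≤ y → y ≤ kappa hL i := by
    intro i j h1 h2 y hy hiy
    obtain ⟨m, hm⟩ := exists_lower i.2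
    have hmk : m ⊔ j.1 ≤ kappa hL i := sup_le (lt_le_kappa hL hm.1) h2
    have h3 : ¬ i.1 ≤ y ⊔ (m ⊔ j.1) := by
      intro hle
      have e1 : (m ⊔ j.1) ⊔ y = (m ⊔ j.1) ⊔ i.1 := by
        apply le_antisymm
        · refine sup_le le_sup_left (hy.trans ?_)
          exact sup_le le_sup_right (le_sup_right.trans le_sup_left)
        · exact sup_le le_sup_left (hle.trans (sup_comm _ _).le)
      have e2 := hL.join (m ⊔ j.1) y i.1 e1
      have e3 : y ⊓ i.1 ≤ m := hm.2 (lt_of_le_of_ne inf_le_right (fun h => hiy (inf_eq_right.1 h)))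
      rw [sup_eq_left.2 (e3.trans le_sup_left)] at e2
      have : i.1 ≤ m ⊔ j.1 := le_sup_right.trans (e1.ge.trans e2.ge)
      exact not_le_kappa hL i (this.trans hmk)
    exact le_sup_left.trans (le_kappa hL (fun z hz => (hm.2 hz).trans
      (le_sup_left.trans le_sup_right)) h3)
  have href : ∀ i j : JI L, i.1 ≤ kappa hL j → j.1 ≤ kappa hL i → ∀ B, IsLUB B (i.1 ⊔ j.1) →
      ∃ b ∈ B, i.1 ≤ b := by
    intro i j h1 h2 B hB
    by_contra hcon
    push Not at hcon
    refine not_le_kappa hL i (le_sup_left.trans (hB.2 fun b hb => ?_))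
    exact key i j h1 h2 b (hB.1 hb) (hcon b hb)
  have hlub : IsLUB {i.1, j.1} (i.1 ⊔ j.1) := isLUB_pair
  have hnij : ¬ i.1 ≤ j.1 := fun h => not_le_kappa hL i (h.trans h2)
  have hnji : ¬ j.1 ≤ i.1 := fun h => not_le_kappa hL j (h.trans h1)
  refine ⟨hlub, fun B hB hBl => ?_, fun B hB a ha => ?_⟩
  · obtain ⟨b, hb, hib⟩ := href i j h1 h2 B hBl
    obtain ⟨c, hc, hjc⟩ := href j i h2 h1 B (by rwa [sup_comm])
    refine hB.2 ?_
    rintro x (rfl | hx)
    · rcases hB.1 hb with rfl | hb'
      · exact hb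
      · rw [Set.mem_singleton_iff.1 hb'] at hib
        exact absurd hib hnij
    · rw [Set.mem_singleton_iff.1 hx]
      rcases hB.1 hc with rfl | hc'
      · exact absurd hjc hnji
      · rw [Set.mem_singleton_iff.1 hc'] at hc
        exact hc
  · rcases ha with rfl | ha
    · exact href i j h1 h2 B hB
    · rw [Set.mem_singleton_iff.1 ha]
      exact href j i h2 h1 B (by rwa [sup_comm])

/-- For distinct join-irreducibles: `{i, j}` is a face iff `i ≤ κ(j)` and `j ≤ κ(i)`. -/
lemma face_iff {i j : JI L} (hij : i ≠ j) :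
    (∃ w, IsCanonicalJoinRep {i.1, j.1} w) ↔ i.1 ≤ kappa hL j ∧ j.1 ≤ kappa hL i := by
  constructor
  · rintro ⟨w, hw⟩
    exact ⟨le_kappa_of_canonical hL hij hw,
      le_kappa_of_canonical hL hij.symm (by rwa [Set.pair_comm])⟩
  · rintro ⟨h1, h2⟩
    exact ⟨_, canonical_of_le_kappa hL h1 h2⟩

end kappa

/-- If the edges of the canonical join complex of a finite semidistributive lattice are the non-edges
of a triangle-free graph, then this graph is 3-colourable. -/
lemma colorable {L : Type*} [Lattice L] [Finite L] (hL : Semidistributive L) {V : Type*}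
    (adj : V → V → Prop) (hsymm : ∀ u v, adj u v → adj v u) (hirr : ∀ v, ¬ adj v v)
    (htri : ∀ u v w, adj u v → adj v w → adj u w → False) (f : V ≃ JI L)
    (hf : ∀ u v, u ≠ v → ((∃ w, IsCanonicalJoinRep {(f u).1, (f v).1} w) ↔ ¬ adj u v)) :
    ∃ c : V → Fin 3, ∀ u v, adj u v → c u ≠ c v := by
  classical
  set arr : V → V → Prop := fun u v => ¬ (f u).1 ≤ kappa hL (f v) with harr
  have hface : ∀ u v, u ≠ v → (adj u v ↔ (arr u v ∨ arr v u)) := by
    intro u v huv
    have h1 := hf u v huv
    rw [face_iff hL (fun h => huv (f.injective h))] at h1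
    rw [← not_iff_not, ← h1]
    simp only [harr]
    tauto
  have hadj : ∀ u v, u ≠ v → arr u v → adj u v := fun u v huv h => (hface u v huv).2 (Or.inl h)
  have hadj' : ∀ u v, u ≠ v → arr u v → adj v u := fun u v huv h =>
    hsymm _ _ (hadj u v huv h)
  -- arrows out of `v` are impossible if `v` is the smaller end of an arrow
  have hA : ∀ u v, u ≠ v → arr u v → ((∀ y, y ≠ v → ¬ arr v y) ∨ (∀ y, y ≠ u → ¬ arr y u)) := by
    intro u v huv h
    obtain ⟨z, hz1, hz2⟩ := factor hL h
    obtain ⟨x, rfl⟩ := f.surjective z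
    have hux : arr u x := fun h => not_le_kappa hL (f x) (hz1.trans h)
    have hxv : arr x v := fun h => not_le_kappa hL (f x) (h.trans hz2)
    by_cases hxu : x = u
    · subst hxu
      right
      intro y hy hyx
      by_cases hyv : y = v
      · subst hyv
        have h1 : kappa hL (f x) ≤ kappa hL (f y) :=
          le_kappa hL (fun z hz => (lt_le_kappa hL hz).trans hz2) hyx
        exact huv (f.injective (kappa_inj hL (le_antisymm h1 hz2)))
      · have hyv' : arr y v := fun h => hyx (h.trans hz2)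
        exact htri y x v (hadj y x hy hyx) (hadj x v huv h) (hadj y v hyv hyv')
    · by_cases hxv' : x = v
      · subst hxv'
        left
        intro y hy hxy
        by_cases hyu : y = u
        · subst hyu
          exact hxy (lt_le_kappa hL (lt_of_le_of_ne hz1
            (fun h => huv (f.injective (Subtype.ext h.symm)))))
        · have huy : arr u y := fun h => hxy (hz1.trans h)
          exact htri u x y (hadj u x huv h) (hadj x y (Ne.symm hy) hxy)
            (hadj u y (Ne.symm hyu) huy)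
      · exact absurd (hadj u v huv h)
          (fun h => htri u x v (hadj u x (Ne.symm hxu) hux) (hadj x v hxv' hxv) h)
  let c : V → Fin 3 := fun v =>
    if ∀ y, y ≠ v → ¬ arr y v then 0 else if ∀ y, y ≠ v → ¬ arr v y then 1 else 2
  have hc : ∀ u v, u ≠ v → arr u v → c u ≠ c v := by
    intro u v huv h
    have hv0 : ¬ ∀ y, y ≠ v → ¬ arr y v := fun hh => hh u huv h
    have hu1 : ¬ ∀ y, y ≠ u → ¬ arr u y := fun hh => hh v (Ne.symm huv) h
    rcases hA u v huv h with h1 | h1
    · have ecv : c v = 1 := by simp only [c]; rw [if_neg hv0, if_pos h1]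
      rw [ecv]
      simp only [c]
      split_ifs <;> decide
    · have ecu : c u = 0 := by simp only [c]; rw [if_pos h1]
      rw [ecu]
      simp only [c]
      rw [if_neg hv0]
      split_ifs <;> decide
  refine ⟨c, fun u v huv => ?_⟩
  have hne : u ≠ v := by rintro rfl; exact hirr _ huv
  rcases (hface u v hne).1 huv with h | h
  · exact hc u v hne h
  · exact (hc v u hne.symm h).symm

/-! ### The construction -/

/-- The lattice attached to a graph with adjacency `adj`. -/
@[ext]
structure Lat {V : Type*} (adj : V → V → Prop) where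
  A : V → V → Prop
  B : V → Prop
  row : ∀ v, B v → ∀ w, A v w
  col : ∀ v, (∀ w, A v w) → (∃ u, adj u v ∧ A u v) → B v

namespace Lat

variable {V : Type*} {adj : V → V → Prop}

instance : PartialOrder (Lat adj) where
  le x y := (∀ u v, x.A u v → y.A u v) ∧ (∀ v, x.B v → y.B v)
  le_refl x := ⟨fun _ _ h => h, fun _ h => h⟩
  le_trans x y z h1 h2 := ⟨fun _ _ h => h2.1 _ _ (h1.1 _ _ h), fun _ h => h2.2 _ (h1.2 _ h)⟩
  le_antisymm x y h1 h2 := by
    ext
    · exact ⟨h1.1 _ _, h2.1 _ _⟩
    · exact ⟨h1.2 _, h2.2 _⟩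

lemma le_def {x y : Lat adj} : x ≤ y ↔ (∀ u v, x.A u v → y.A u v) ∧ (∀ v, x.B v → y.B v) :=
  Iff.rfl

instance : Lattice (Lat adj) where
  sup x y :=
    { A := fun u v => x.A u v ∨ y.A u v
      B := fun v => x.B v ∨ y.B v ∨
        ((∀ w, x.A v w ∨ y.A v w) ∧ ∃ u, adj u v ∧ (x.A u v ∨ y.A u v))
      row := by
        rintro v (h | h | h) w
        · exact Or.inl (x.row v h w)
        · exact Or.inr (y.row v h w)
        · exact h.1 w
      col := fun v h1 h2 => Or.inr (Or.inr ⟨h1, h2⟩) }
  inf x y :=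
    { A := fun u v => x.A u v ∧ y.A u v
      B := fun v => x.B v ∧ y.B v
      row := fun v h w => ⟨x.row v h.1 w, y.row v h.2 w⟩
      col := by
        rintro v h1 ⟨u, hu, h2⟩
        exact ⟨x.col v (fun w => (h1 w).1) ⟨u, hu, h2.1⟩, y.col v (fun w => (h1 w).2) ⟨u, hu, h2.2⟩⟩ }
  le_sup_left x y := ⟨fun _ _ h => Or.inl h, fun _ h => Or.inl h⟩
  le_sup_right x y := ⟨fun _ _ h => Or.inr h, fun _ h => Or.inr (Or.inl h)⟩
  sup_le x y z h1 h2 := by
    refine ⟨fun u v h => h.elim (h1.1 u v) (h2.1 u v), ?_⟩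
    rintro v (h | h | ⟨h, u, hu, h'⟩)
    · exact h1.2 v h
    · exact h2.2 v h
    · exact z.col v (fun w => (h w).elim (h1.1 v w) (h2.1 v w))
        ⟨u, hu, h'.elim (h1.1 u v) (h2.1 u v)⟩
  inf_le_left x y := ⟨fun _ _ h => h.1, fun _ h => h.1⟩
  inf_le_right x y := ⟨fun _ _ h => h.2, fun _ h => h.2⟩
  le_inf x y z h1 h2 := ⟨fun u v h => ⟨h1.1 u v h, h2.1 u v h⟩, fun v h => ⟨h1.2 v h, h2.2 v h⟩⟩

lemma sup_A {x y : Lat adj} {u v : V} : (x ⊔ y).A u v ↔ x.A u v ∨ y.A u v := Iff.rfl

lemma sup_B {x y : Lat adj} {v : V} : (x ⊔ y).B v ↔ x.B v ∨ y.B v ∨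
    ((∀ w, x.A v w ∨ y.A v w) ∧ ∃ u, adj u v ∧ (x.A u v ∨ y.A u v)) := Iff.rfl

lemma inf_A {x y : Lat adj} {u v : V} : (x ⊓ y).A u v ↔ x.A u v ∧ y.A u v := Iff.rfl

lemma inf_B {x y : Lat adj} {v : V} : (x ⊓ y).B v ↔ x.B v ∧ y.B v := Iff.rfl

instance [Finite V] : Finite (Lat adj) := by
  refine Finite.of_injective (β := (V → V → Prop) × (V → Prop)) (fun x => (x.A, x.B)) ?_
  intro x y h
  rw [Prod.mk.injEq] at h
  exact Lat.ext h.1 h.2

lemma semidistributive : Semidistributive (Lat adj) := by
  constructor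
  · intro x y z h
    have hA : ∀ u v, x.A u v ∨ y.A u v → x.A u v ∨ z.A u v := by
      intro u v h'
      rw [← sup_A, ← h]
      exact h'
    apply le_antisymm
    · exact sup_le le_sup_left (inf_le_left.trans le_sup_right)
    · have hA' : ∀ u v, x.A u v ∨ y.A u v → x.A u v ∨ (y.A u v ∧ z.A u v) := by
        intro u v h'
        have := hA u v h'
        tauto
      refine ⟨fun u v h' => hA' u v h', fun v hv => ?_⟩
      have hv' : (x ⊔ z).B v := h ▸ hv
      rw [sup_B] at hv hv' ⊢
      rw [inf_B]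
      simp only [inf_A]
      by_cases hQ : (∀ w, x.A v w ∨ y.A v w) ∧ ∃ u, adj u v ∧ (x.A u v ∨ y.A u v)
      · obtain ⟨h1, u, hu, h2⟩ := hQ
        exact Or.inr (Or.inr ⟨fun w => hA' v w (h1 w), u, hu, hA' u v h2⟩)
      · have hQ' : ¬ ((∀ w, x.A v w ∨ z.A v w) ∧ ∃ u, adj u v ∧ (x.A u v ∨ z.A u v)) := by
          intro hQ'
          apply hQ
          have hB : ∀ u v, x.A u v ∨ z.A u v → x.A u v ∨ y.A u v := by
            intro u v h'
            rw [← sup_A, h]
            exact h'
          obtain ⟨h1, u, hu, h2⟩ := hQ'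
          exact ⟨fun w => hB v w (h1 w), u, hu, hB u v h2⟩
        rcases hv with h1 | h1 | h1
        · exact Or.inl h1
        · rcases hv' with h2 | h2 | h2
          · exact Or.inl h2
          · exact Or.inr (Or.inl ⟨h1, h2⟩)
          · exact absurd h2 hQ'
        · exact absurd h1 hQ
  · intro x y z h
    have hA : ∀ u v, x.A u v ∧ z.A u v → x.A u v ∧ y.A u v := by
      intro u v h'
      rw [← inf_A, h]
      exact h'
    have hA2 : ∀ u v, x.A u v ∧ y.A u v → x.A u v ∧ z.A u v := by
      intro u v h'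
      rw [← inf_A, ← h]
      exact h'
    have hB : ∀ v, x.B v ∧ z.B v → x.B v ∧ y.B v := by
      intro v h'
      rw [← inf_B, h]
      exact h'
    apply le_antisymm
    · refine ⟨fun u v h' => ?_, fun v hv => ?_⟩
      · rw [inf_A, sup_A] at h'
        rcases h'.2 with h2 | h2
        · exact ⟨h'.1, h2⟩
        · exact hA u v ⟨h'.1, h2⟩
      · rw [inf_B, sup_B] at hv
        obtain ⟨hx, h2 | h2 | ⟨h2, u, hu, h3⟩⟩ := hv
        · exact ⟨hx, h2⟩
        · exact hB v ⟨hx, h2⟩
        · have hy : ∀ w, y.A v w := fun w => by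
            rcases h2 w with h4 | h4
            · exact h4
            · exact (hA v w ⟨x.row v hx w, h4⟩).2
          have hz : ∀ w, z.A v w := fun w => (hA2 v w ⟨x.row v hx w, hy w⟩).2
          rcases h3 with h3 | h3
          · exact ⟨hx, y.col v hy ⟨u, hu, h3⟩⟩
          · exact hB v ⟨hx, z.col v hz ⟨u, hu, h3⟩⟩
    · exact le_inf inf_le_left (inf_le_right.trans le_sup_left)

/-- The join-irreducible element attached to a vertex. -/
def vtx (_hirr : ∀ v, ¬ adj v v) (v : V) : Lat adj where
  A := fun u _ => u = v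
  B := fun u => u = v
  row := fun _ h _ => h
  col := fun u h _ => h u

/-- Its lower cover. -/
def low (hirr : ∀ v, ¬ adj v v) (v : V) : Lat adj where
  A := fun u _ => u = v
  B := fun _ => False
  row := fun _ h _ => h.elim
  col := by
    rintro u h ⟨w, hw, rfl⟩
    exact hirr w (by simpa [h w] using hw)

lemma le_vtx_iff (hirr : ∀ v, ¬ adj v v) {v : V} {x : Lat adj} : vtx hirr v ≤ x ↔ x.B v := by
  constructor
  · intro h
    exact h.2 v rfl
  · intro h
    refine ⟨?_, ?_⟩
    · rintro u w rfl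
      exact x.row u h w
    · rintro u rfl
      exact h

lemma vtx_supIrred (hirr : ∀ v, ¬ adj v v) (v : V) : SupIrred (vtx hirr v) := by
  constructor
  · intro h
    have h1 : low hirr v ≤ vtx hirr v := ⟨fun _ _ h => h, fun _ h => h.elim⟩
    have h2 := h h1
    rw [le_vtx_iff] at h2
    exact h2
  · intro b c hbc
    have hv : (b ⊔ c).B v := by rw [hbc]; exact rfl
    have hb : b ≤ vtx hirr v := hbc ▸ le_sup_left
    have hc : c ≤ vtx hirr v := hbc ▸ le_sup_right
    rw [sup_B] at hv
    rcases hv with h | h | ⟨_, u, hu, h⟩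
    · exact Or.inl (le_antisymm hb ((le_vtx_iff hirr).2 h))
    · exact Or.inr (le_antisymm hc ((le_vtx_iff hirr).2 h))
    · exfalso
      have : u = v := h.elim (hb.1 u v) (hc.1 u v)
      subst this
      exact hirr u hu

lemma vtx_injective (hirr : ∀ v, ¬ adj v v) : Function.Injective (vtx (adj := adj) hirr) := by
  intro u v h
  have : (vtx hirr u).B v := by rw [h]; exact rfl
  exact this.symm

lemma not_face (hirr : ∀ v, ¬ adj v v) {u v : V} (huv : adj u v) (w : Lat adj) :
    ¬ IsCanonicalJoinRep {vtx hirr u, vtx hirr v} w := by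
  intro h
  have hne : u ≠ v := by rintro rfl; exact hirr _ huv
  have h1 : IsLUB {vtx hirr u, low hirr v} w := by
    constructor
    · rintro x (rfl | hx)
      · exact h.isLUB.1 (by simp)
      · rw [Set.mem_singleton_iff.1 hx]
        have h1 : low hirr v ≤ vtx hirr v := ⟨fun _ _ h => h, fun _ h => h.elim⟩
        exact h1.trans (h.isLUB.1 (by simp))
    · intro t ht
      refine h.isLUB.2 fun a ha => ?_
      rcases ha with rfl | ha
      · exact ht (by simp)
      · rw [Set.mem_singleton_iff.1 ha, le_vtx_iff]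
        have h2 : low hirr v ≤ t := ht (by simp)
        have h3 : vtx hirr u ≤ t := ht (by simp)
        exact t.col v (fun w => h2.1 v w rfl) ⟨u, huv, h3.1 u v rfl⟩
  obtain ⟨b, hb, hjb⟩ := h.refines _ h1 (vtx hirr v) (by simp)
  rw [le_vtx_iff] at hjb
  rcases hb with rfl | hb
  · exact hne hjb.symm
  · rw [Set.mem_singleton_iff.1 hb] at hjb
    exact hjb

lemma face (hsymm : ∀ u v, adj u v → adj v u) (hirr : ∀ v, ¬ adj v v) {u v : V} (hne : u ≠ v)
    (huv : ¬ adj u v) :
    IsCanonicalJoinRep {vtx hirr u, vtx hirr v} (vtx hirr u ⊔ vtx hirr v) := by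
  have key : ∀ u v : V, u ≠ v → ¬ adj v u → ∀ B, IsLUB B (vtx hirr u ⊔ vtx hirr v) →
      ∃ b ∈ B, vtx hirr u ≤ b := by
    intro u v hne huv B hB
    by_contra hcon
    push Not at hcon
    let t : Lat adj :=
      { A := (vtx hirr u ⊔ vtx hirr v).A
        B := fun x => (vtx hirr u ⊔ vtx hirr v).B x ∧ x ≠ u
        row := fun x hx => (vtx hirr u ⊔ vtx hirr v).row x hx.1
        col := by
          rintro x h1 ⟨y, hy, h2⟩
          refine ⟨(vtx hirr u ⊔ vtx hirr v).col x h1 ⟨y, hy, h2⟩, ?_⟩
          rintro rfl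
          rcases h2 with rfl | rfl
          · exact hirr _ hy
          · exact huv hy }
    have ht : vtx hirr u ⊔ vtx hirr v ≤ t := by
      refine hB.2 fun b hb => ⟨(hB.1 hb).1, fun x hx => ⟨(hB.1 hb).2 x hx, ?_⟩⟩
      rintro rfl
      exact hcon b hb ((le_vtx_iff hirr).2 hx)
    have h1 : t.B u := (le_vtx_iff hirr).1 (le_sup_left.trans ht)
    exact h1.2 rfl
  have hvu : ¬ adj v u := fun h => huv (hsymm _ _ h)
  refine ⟨isLUB_pair, fun B hB hBl => ?_, fun B hB a ha => ?_⟩
  · obtain ⟨b, hb, hib⟩ := key u v hne hvu B hBl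
    obtain ⟨c, hc, hjc⟩ := key v u hne.symm huv B (by rwa [sup_comm])
    rw [le_vtx_iff] at hib hjc
    refine hB.2 ?_
    rintro x (rfl | hx)
    · rcases hB.1 hb with rfl | hb'
      · exact hb
      · rw [Set.mem_singleton_iff.1 hb'] at hib
        exact absurd hib hne
    · rw [Set.mem_singleton_iff.1 hx]
      rcases hB.1 hc with rfl | hc'
      · exact absurd hjc hne.symm
      · rw [Set.mem_singleton_iff.1 hc'] at hc
        exact hc
  · rcases ha with rfl | ha
    · exact key u v hne hvu B hB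
    · rw [Set.mem_singleton_iff.1 ha]
      exact key v u hne.symm huv B (by rwa [sup_comm])

end Lat

/-! ### The Grötzsch graph -/

/-- The adjacency relation of the Grötzsch graph: a 5-cycle `0, ..., 4`, its shadow `5, ..., 9` and
the apex `10`. -/
def groetzsch (u v : Fin 11) : Prop :=
  (u.1 < 5 ∧ v.1 < 5 ∧ ((u.1 + 1) % 5 = v.1 ∨ (v.1 + 1) % 5 = u.1)) ∨
  (u.1 < 5 ∧ 5 ≤ v.1 ∧ v.1 < 10 ∧ ((u.1 + 1) % 5 = v.1 - 5 ∨ (v.1 - 5 + 1) % 5 = u.1)) ∨
  (v.1 < 5 ∧ 5 ≤ u.1 ∧ u.1 < 10 ∧ ((v.1 + 1) % 5 = u.1 - 5 ∨ (u.1 - 5 + 1) % 5 = v.1)) ∨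
  (5 ≤ u.1 ∧ u.1 < 10 ∧ v.1 = 10) ∨ (5 ≤ v.1 ∧ v.1 < 10 ∧ u.1 = 10)

instance : DecidableRel groetzsch := fun u v => by unfold groetzsch; infer_instance

lemma groetzsch_symm : ∀ u v, groetzsch u v → groetzsch v u := by decide

lemma groetzsch_irr : ∀ v, ¬ groetzsch v v := by decide

lemma groetzsch_tri : ∀ u v w, groetzsch u v → groetzsch v w → groetzsch u w → False := by decide

lemma five_cycle : ∀ (k a b c d e : Fin 3), ¬ (a ≠ k ∧ b ≠ k ∧ c ≠ k ∧ d ≠ k ∧ e ≠ k ∧
    a ≠ b ∧ b ≠ c ∧ c ≠ d ∧ d ≠ e ∧ e ≠ a) := by decide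

lemma groetzsch_col (c : Fin 11 → Fin 3) (hc : ∀ u v, groetzsch u v → c u ≠ c v) : False := by
  let d : Fin 5 → Fin 3 := fun i =>
    if c (i.castLE (by norm_num)) = c 10 then c ((i.castLE (by norm_num) : Fin 11) + 5)
    else c (i.castLE (by norm_num))
  have h1 : ∀ i : Fin 5, d i ≠ c 10 := by
    intro i
    simp only [d]
    split_ifs with h
    · refine hc _ _ ?_
      have h0 : ∀ i : Fin 5, groetzsch ((i.castLE (by norm_num) : Fin 11) + 5) 10 := by decide
      exact h0 i
    · exact h
  have h2 : ∀ i j : Fin 5, (i.1 + 1) % 5 = j.1 → d i ≠ d j := by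
    intro i j hij
    have e1 : groetzsch (i.castLE (by norm_num)) (j.castLE (by norm_num)) := by
      revert i j; decide
    have e2 : groetzsch (i.castLE (by norm_num)) ((j.castLE (by norm_num) : Fin 11) + 5) := by
      revert i j; decide
    have e3 : groetzsch ((i.castLE (by norm_num) : Fin 11) + 5) (j.castLE (by norm_num)) := by
      revert i j; decide
    have f1 := hc _ _ e1
    have f2 := hc _ _ e2
    have f3 := hc _ _ e3
    simp only [d]
    split_ifs with g1 g2 g2
    · exact absurd (g1.trans g2.symm) f1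
    · exact f3
    · exact f2
    · exact f1
  exact five_cycle (c 10) (d 0) (d 1) (d 2) (d 3) (d 4) ⟨h1 0, h1 1, h1 2, h1 3, h1 4,
    h2 0 1 rfl, h2 1 2 rfl, h2 2 3 rfl, h2 3 4 rfl, h2 4 0 rfl⟩

/-- **The class of canonical join complexes of finite semidistributive lattices is not closed under
induced subcomplexes.** There are a finite semidistributive lattice `L` and a set `W` of
join-irreducible elements of `L` such that the subcomplex of the canonical join complex of `L` induced
on `W` is not isomorphic to the canonical join complex of any finite semidistributive lattice. -/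
theorem result : ∃ (L : Type) (_ : Lattice L) (_ : Finite L) (W : Set (JI L)),
    Semidistributive L ∧
    ∀ (L' : Type*) [Lattice L'] [Finite L'], Semidistributive L' →
      ¬ Isomorphic (induced (canonicalJoinComplex L) W) (canonicalJoinComplex L') := by
  classical
  let v : Fin 11 → JI (Lat groetzsch) := fun i => ⟨Lat.vtx groetzsch_irr i,
    Lat.vtx_supIrred groetzsch_irr i⟩
  have hv : Function.Injective v := fun i j h =>
    Lat.vtx_injective groetzsch_irr (congrArg Subtype.val h)
  refine ⟨Lat groetzsch, inferInstance, inferInstance, Set.range v, Lat.semidistributive, ?_⟩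
  rintro L' _ _ hL' ⟨e, he⟩
  let g : Fin 11 ≃ Set.range v := Equiv.ofInjective v hv
  obtain ⟨c, hc⟩ := colorable hL' groetzsch groetzsch_symm groetzsch_irr groetzsch_tri
    (g.trans e) (by
      intro i j hij
      have hgij : g i ≠ g j := fun h => hij (g.injective h)
      have h1 := he {g i, g j}
      simp only [canonicalJoinComplex, induced, Set.mem_ofPred_eq] at h1
      simp only [Finset.map_insert, Finset.map_singleton, Finset.coe_insert, Finset.coe_singleton,
        Set.image_insert_eq, Set.image_singleton, Finset.insert_nonempty, true_and,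
        Function.Embedding.coe_subtype, Equiv.coe_toEmbedding] at h1
      rw [Equiv.trans_apply, Equiv.trans_apply, ← h1]
      constructor
      · rintro ⟨w, hw⟩ hadj
        exact Lat.not_face groetzsch_irr hadj w hw
      · intro hadj
        exact ⟨_, Lat.face groetzsch_symm groetzsch_irr hij hadj⟩)
  exact groetzsch_col c hc

end Pool.Agent.Results.MP_b1aa48_co.InducedSubcomplexes
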